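import Pool.Agent.H35.SW.FStmts

/-! Module TRU: definability of the forcing relation and the truth lemma. -/

set_option linter.unusedVariables false
set_option synthInstance.maxSize 100000

namespace SW

variable {M : Type} [SetStr M] [ZF M] (F : FPoset M)

theorem tru_df : ∀ {n : ℕ} (f : Fml n),
    Df (fun w : Fin (n + 1) → M => Frc F f (w 0) (fun i => w i.succ))
  | _, .mem i j => by
      unfold Frc
      infer_instance
  | _, .eq i j => by
      unfold Frc
      infer_instance
  | _, .bot => by
      unfold Frc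
      infer_instance
  | n, .imp f g => by
      have hf := tru_df f
      have hg := tru_df g
      have hf' : Df (fun w : Fin (n + 1 + 1) → M => Frc F f (w 0) (fun i => w i.succ.succ)) :=
        (hf.ren (Fin.cons 0 (fun i => i.succ.succ))).congr fun v => by simp
      have hg' : Df (fun w : Fin (n + 1 + 1) → M => Frc F g (w 0) (fun i => w i.succ.succ)) :=
        (hg.ren (Fin.cons 0 (fun i => i.succ.succ))).congr fun v => by simp
      have h1 : Df (fun w : Fin (n + 1 + 1) → M => E (w 0) F.P → F.le (w 0) (w 1) →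
          Frc F f (w 0) (fun i => w i.succ.succ) → Frc F g (w 0) (fun i => w i.succ.succ)) := by
        have : Df (fun w : Fin (n + 1 + 1) → M => F.le (w 0) (w 1)) := inferInstance
        infer_instance
      exact (Df.all (P := fun q (w : Fin (n + 1) → M) => E q F.P → F.le q (w 0) →
        Frc F f q (fun i => w i.succ) → Frc F g q (fun i => w i.succ)) (h := h1)).congr
        fun v => by simp only [Frc]
  | n, .all f => by
      have hf := tru_df f
      have h1 : Df (fun w : Fin (n + 1 + 1) → M =>
          Frc F f (w 1) (Fin.cons (w 0) (fun i => w i.succ.succ))) := by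
        refine (hf.ren (Fin.cons 1 (Fin.cons 0 (fun i => i.succ.succ)))).congr fun v => ?_
        have : (fun i : Fin (n + 1) => v ((Fin.cons 1 (Fin.cons 0 (fun i => i.succ.succ)) :
            Fin (n + 2) → Fin (n + 2)) i.succ))
            = (Fin.cons (v 0) (fun i => v i.succ.succ) : Fin (n + 1) → M) := by
          funext i
          refine Fin.cases ?_ (fun j => ?_) i <;> simp
        rw [this]
        simp
      exact (Df.all (P := fun x (w : Fin (n + 1) → M) =>
        Frc F f (w 0) (Fin.cons x (fun i => w i.succ))) (h := h1)).congr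
        fun v => by simp only [Frc]

theorem tru_mono (hE : EqFacts F) : ∀ {n : ℕ} (f : Fml n) {p q : M} {v : Fin n → M},
    E p F.P → E q F.P → F.le q p → Frc F f p v → Frc F f q v
  | _, .mem i j, p, q, v, hp, hq, hle, h => hE.mmono h hq hle
  | _, .eq i j, p, q, v, hp, hq, hle, h => hE.mono h hq hle
  | _, .bot, p, q, v, hp, hq, hle, h => h.elim
  | _, .imp f g, p, q, v, hp, hq, hle, h => fun r hr hrq hf =>
      h r hr (F.trans r q p hr hq hp hrq hle) hf
  | _, .all f, p, q, v, hp, hq, hle, h => fun x => tru_mono hE f hp hq hle (h x)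

theorem tru_dense (hE : EqFacts F) : ∀ {n : ℕ} (f : Fml n) {p : M} {v : Fin n → M}, E p F.P →
    (∀ q, E q F.P → F.le q p → ∃ r, E r F.P ∧ F.le r q ∧ Frc F f r v) → Frc F f p v
  | _, .mem i j, p, v, hp, h => hE.mdense hp h
  | _, .eq i j, p, v, hp, h => hE.dense hp h
  | _, .bot, p, v, hp, h => by
      obtain ⟨r, _, _, hr⟩ := h p hp (F.refl p hp)
      exact hr
  | _, .imp f g, p, v, hp, h => by
      intro q hq hqp hf
      refine tru_dense hE g hq ?_
      intro q' hq' hqq'
      obtain ⟨r, hr, hrq, hri⟩ := h q' hq' (F.trans q' q p hq' hq hp hqq' hqp)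
      exact ⟨r, hr, hrq, hri r hr (F.refl r hr)
        (tru_mono F hE f hq hr (F.trans r q' q hr hq' hq hrq hqq') hf)⟩
  | _, .all f, p, v, hp, h => by
      intro x
      refine tru_dense hE f hp ?_
      intro q hq hqp
      obtain ⟨r, hr, hrq, hri⟩ := h q hq hqp
      exact ⟨r, hr, hrq, hri x⟩

theorem cl_imp {A B C : M → Prop} (hA : Cl A) (hB : Cl B) (hC : Cl C) :
    Cl (fun p => A p ∨ (B p ∧ ∀ q : M, E q F.P → F.le q p → ¬ C q)) := by
  infer_instance

theorem cl_all {A : M → Prop} {R : M → M → Prop} (hA : Cl A) (hR : Cl2 R) :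
    Cl (fun p => A p ∨ ∃ x : M, ∀ q : M, E q F.P → F.le q p → ¬ R q x) := by
  infer_instance

theorem frc_cl {n : ℕ} (f : Fml n) (v : Fin n → M) : Cl (fun p => Frc F f p v) :=
  Df.fix (P := fun p v => Frc F f p v) (tru_df F f) v

theorem frc_cl2 {n : ℕ} (f : Fml (n + 1)) (v : Fin n → M) :
    Cl2 (fun p x => Frc F f p (Fin.cons x v)) := by
  have h1 : Df (fun w : Fin (n + 2) → M => Frc F f (w 0)
      (Fin.cons (w 1) (fun i => w i.succ.succ))) := by
    refine (tru_df F f).congr fun w => ?_
    have : (fun i : Fin (n + 1) => w i.succ)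
        = (Fin.cons (w 1) (fun i => w i.succ.succ) : Fin (n + 1) → M) := by
      funext i
      refine Fin.cases ?_ (fun j => ?_) i <;> simp
    rw [this]
  exact Df.fix2 (P := fun p x v => Frc F f p (Fin.cons x v)) h1 v

theorem mk_cons (G : M → Prop) {n : ℕ} (x : M) (v : Fin n → M) :
    (fun i => mk F G ((Fin.cons x v : Fin (n + 1) → M) i))
      = (Fin.cons (mk F G x) (fun i => mk F G (v i)) : Fin (n + 1) → Ext F G) := by
  funext i
  refine Fin.cases ?_ (fun j => ?_) i <;> simp

theorem tru_truth (hE : EqFacts F) {G : M → Prop} (hG : Gen F G) (hgm : GenFacts F G)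
    (hq : ExtFacts F G) : ∀ {n : ℕ} (f : Fml n) (v : Fin n → M),
    Sat f (fun i => mk F G (v i)) ↔ ∃ p, G p ∧ Frc F f p v
  | _, .mem i j, v => hq.mem_iff _ _
  | _, .eq i j, v => hq.eq_iff _ _
  | _, .bot, v => by
      simp [Sat, Frc]
  | _, .imp f g, v => by
      have ihf := tru_truth hE hG hgm hq f v
      have ihg := tru_truth hE hG hgm hq g v
      simp only [Sat]
      constructor
      · intro h
        obtain ⟨p, hp, hpC⟩ := hgm.meetC _ (cl_imp F (frc_cl F (.imp f g) v) (frc_cl F f v)
          (frc_cl F g v)) (by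
            intro p hp
            by_cases hc : ∃ q, E q F.P ∧ F.le q p ∧ Frc F f q v ∧
                ∀ r, E r F.P → F.le r q → ¬ Frc F g r v
            · obtain ⟨q, hq1, hq2, hq3, hq4⟩ := hc
              exact ⟨q, hq1, hq2, Or.inr ⟨hq3, hq4⟩⟩
            · push Not at hc
              refine ⟨p, hp, F.refl p hp, Or.inl ?_⟩
              intro q hq hqp hf
              refine tru_dense F hE g hq ?_
              intro q' hq' hqq'
              obtain ⟨r, hr1, hr2, hr3⟩ := hc q' hq' (F.trans q' q p hq' hq hp hqq' hqp)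
                (tru_mono F hE f hq hq' hqq' hf)
              exact ⟨r, hr1, hr2, hr3⟩)
        rcases hpC with h1 | ⟨h1, h2⟩
        · exact ⟨p, hp, h1⟩
        · exfalso
          obtain ⟨p', hp', hg'⟩ := ihg.1 (h (ihf.2 ⟨p, hp, h1⟩))
          obtain ⟨r, hr, hrp, hrp'⟩ := hG.dir p p' hp hp'
          exact h2 r (hG.sub r hr) hrp (tru_mono F hE g (hG.sub p' hp') (hG.sub r hr) hrp' hg')
      · rintro ⟨p, hp, h⟩ hf
        obtain ⟨p', hp', hf'⟩ := ihf.1 hf
        obtain ⟨r, hr, hrp, hrp'⟩ := hG.dir p p' hp hp'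
        exact ihg.2 ⟨r, hr, h r (hG.sub r hr) hrp
          (tru_mono F hE f (hG.sub p' hp') (hG.sub r hr) hrp' hf')⟩
  | _, .all f, v => by
      simp only [Sat]
      constructor
      · intro h
        obtain ⟨p, hp, hpC⟩ := hgm.meetC _ (cl_all F (frc_cl F (.all f) v) (frc_cl2 F f v)) (by
            intro p hp
            by_cases hc : ∃ x q, E q F.P ∧ F.le q p ∧
                ∀ r, E r F.P → F.le r q → ¬ Frc F f r (Fin.cons x v)
            · obtain ⟨x, q, hq1, hq2, hq3⟩ := hc
              exact ⟨q, hq1, hq2, Or.inr ⟨x, hq3⟩⟩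
            · push Not at hc
              refine ⟨p, hp, F.refl p hp, Or.inl ?_⟩
              intro x
              refine tru_dense F hE f hp ?_
              intro q hq hqp
              exact hc x q hq hqp)
        rcases hpC with h1 | ⟨x, h1⟩
        · exact ⟨p, hp, h1⟩
        · exfalso
          have h2 := h (mk F G x)
          rw [← mk_cons] at h2
          obtain ⟨p', hp', hf'⟩ := (tru_truth hE hG hgm hq f (Fin.cons x v)).1 h2
          obtain ⟨r, hr, hrp, hrp'⟩ := hG.dir p p' hp hp'
          exact h1 r (hG.sub r hr) hrp (tru_mono F hE f (hG.sub p' hp') (hG.sub r hr) hrp' hf')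
      · rintro ⟨p, hp, h⟩ x
        obtain ⟨a, rfl⟩ := Quot.exists_rep x
        have := (tru_truth hE hG hgm hq f (Fin.cons a v)).2 ⟨p, hp, h a⟩
        rw [mk_cons] at this
        exact this

theorem tru (heq : EQStmt) (hgm : GMStmt) (hquo : QUOStmt) : TRUStmt := by
  intro M _ _ F
  exact ⟨tru_df F, tru_mono F (heq M F), tru_dense F (heq M F),
    fun G hG => tru_truth F (heq M F) hG (hgm M F G hG) (hquo M F G hG)⟩

end SW
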