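import Pool.Agent.H80.SW.Tru

/-! Module ZFB: separation, power set and replacement in the generic extension. -/

set_option linter.unusedVariables false
set_option synthInstance.maxSize 100000

namespace SW

variable {M : Type} [SetStr M] [ZF M] (F : FPoset M)

/-- a set containing all first components of pairs in `a` -/
noncomputable def dm (a : M) : M := sUn (sUn a)

theorem mem_dm {a d s : M} (h : E (opair d s) a) : E d (dm a) := by
  unfold dm
  rw [mem_sUn]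
  refine ⟨upair d s, ?_, by simp⟩
  rw [mem_sUn]
  exact ⟨opair d s, h, by simp [opair]⟩

theorem cl_sepn {R : M → M → Prop} (hR : Cl2 R) (a : M) :
    Cl (fun z => ∃ d q : M, z = opair d q ∧
      (∃ s : M, E (opair d s) a ∧ E s F.P ∧ F.le q s) ∧ R q d) := by
  infer_instance

theorem ext_sep (hE : EqFacts F) {G : M → Prop} (hG : Gen F G) (hq : ExtFacts F G)
    (ht : FrcFacts F) {n : ℕ} (f : Fml (n + 1)) (v : Fin n → Ext F G) (a : Ext F G) :
    ∃ b, ∀ x, E x b ↔ E x a ∧ Sat f (Fin.cons x v) := by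
  obtain ⟨a, rfl⟩ := Quot.exists_rep a
  choose v' hv' using fun i => Quot.exists_rep (v i)
  obtain rfl : (fun i => mk F G (v' i)) = v := funext hv'
  have hcl := cl_sepn F (frc_cl2 F f v') a
  refine ⟨mk F G (sep (prod (dm a) F.P) (fun z => ∃ d q : M, z = opair d q ∧
      (∃ s : M, E (opair d s) a ∧ E s F.P ∧ F.le q s) ∧ Frc F f q (Fin.cons d v'))), ?_⟩
  intro x
  have e : (Quot.mk _ a : Ext F G) = mk F G a := rfl
  rw [e, hq.mem_iff', hq.mem_iff']
  constructor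
  · rintro ⟨d, q, h1, h2, rfl⟩
    rw [mem_sep' hcl] at h1
    obtain ⟨h1, d', q', h3, ⟨s, h4, h5, h6⟩, h7⟩ := h1
    rw [opair_inj] at h3
    obtain ⟨rfl, rfl⟩ := h3
    refine ⟨⟨d, s, h4, hG.up q s h2 h5 h6, rfl⟩, ?_⟩
    have := (ht.truth G hG f (Fin.cons d v')).2 ⟨q, h2, h7⟩
    rw [mk_cons] at this
    exact this
  · rintro ⟨⟨d, s, h1, h2, rfl⟩, h3⟩
    rw [← mk_cons] at h3
    obtain ⟨p, hp, hfp⟩ := (ht.truth G hG f (Fin.cons d v')).1 h3
    obtain ⟨r, hr, hrp, hrs⟩ := hG.dir p s hp h2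
    refine ⟨d, r, ?_, hr, rfl⟩
    rw [mem_sep' hcl, mem_prod]
    exact ⟨⟨mem_dm h1, hG.sub r hr⟩, d, r, rfl, ⟨s, h1, hG.sub s h2, hrs⟩,
      ht.mono f (hG.sub p hp) (hG.sub r hr) hrp hfp⟩

theorem cl_pown (w : M) : Cl (fun z => ∃ d q : M, z = opair d q ∧ MemF F q d w) := by
  infer_instance

theorem ext_pow (hE : EqFacts F) {G : M → Prop} (hG : Gen F G) (hq : ExtFacts F G)
    (ht : FrcFacts F) (hext : ∀ x y : Ext F G, (∀ z, E z x ↔ E z y) → x = y) (a : Ext F G) :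
    ∃ p, ∀ w, E w p ↔ ∀ z, E z w → E z a := by
  obtain ⟨a, rfl⟩ := Quot.exists_rep a
  have e : (Quot.mk _ a : Ext F G) = mk F G a := rfl
  rw [e]
  obtain ⟨⟨f, hf⟩⟩ : UDf (fun M _ (v : Fin 2 → M) => ∀ z : M, E z (v 0) → E z (v 1)) :=
    inferInstance
  obtain ⟨p, hp⟩ := ext_sep F hE hG hq ht f (![mk F G a] : Fin 1 → Ext F G)
    (mk F G (img (pow (prod (dm a) F.P)) (fun z => opair z F.one)))
  refine ⟨p, fun w => ?_⟩
  rw [hp, ← hf]
  have e1 : (Fin.cons w (![mk F G a] : Fin 1 → Ext F G) : Fin 2 → Ext F G) 1 = mk F G a := rfl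
  have e0 : (Fin.cons w (![mk F G a] : Fin 1 → Ext F G) : Fin 2 → Ext F G) 0 = w := rfl
  simp only [e1, e0]
  constructor
  · exact fun h => h.2
  · intro h
    refine ⟨?_, h⟩
    obtain ⟨w, rfl⟩ := Quot.exists_rep w
    have e2 : (Quot.mk _ w : Ext F G) = mk F G w := rfl
    rw [e2] at h ⊢
    have hcl := cl_pown F w
    have hw : mk F G w = mk F G (sep (prod (dm a) F.P)
        (fun z => ∃ d q : M, z = opair d q ∧ MemF F q d w)) := by
      apply hext
      intro z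
      constructor
      · intro hz
        obtain ⟨d, s, h1, h2, rfl⟩ := (hq.mem_iff' _ _).1 (h z hz)
        obtain ⟨q, hq1, hq2⟩ := (hq.mem_iff _ _).1 hz
        rw [hq.mem_iff']
        refine ⟨d, q, ?_, hq1, rfl⟩
        rw [mem_sep' hcl, mem_prod]
        exact ⟨⟨mem_dm h1, hG.sub q hq1⟩, d, q, rfl, hq2⟩
      · intro hz
        obtain ⟨d, q, h1, h2, rfl⟩ := (hq.mem_iff' _ _).1 hz
        rw [mem_sep' hcl] at h1
        obtain ⟨_, d', q', h3, h4⟩ := h1
        rw [opair_inj] at h3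
        obtain ⟨rfl, rfl⟩ := h3
        exact (hq.mem_iff _ _).2 ⟨q, h2, h4⟩
    rw [hw, hq.mem_iff']
    refine ⟨_, F.one, ?_, hG.one, rfl⟩
    rw [mem_img]
    refine ⟨_, ?_, rfl⟩
    rw [mem_pow]
    intro z hz
    rw [mem_sep' hcl] at hz
    exact hz.1

theorem cl_repl {R : M → M → M → Prop} (hR : Cl3 R) :
    Cl2 (fun z y => ∃ d p : M, z = opair d p ∧ R p d y) := by
  infer_instance

theorem frc_cl3 {n : ℕ} (f : Fml (n + 2)) (v : Fin n → M) :
    Cl3 (fun p d y => Frc F f p (Fin.cons d (Fin.cons y v))) := by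
  obtain ⟨m, g, c, hc⟩ := (tru_df F f).out
  refine ⟨m, g, fun i => Sum.elim (Fin.cases (Sum.inl 0) (Fin.cases (Sum.inl 1)
    (Fin.cases (Sum.inl 2) (fun j => Sum.inr (v j))))) Sum.inr (c i), fun w => ?_⟩
  have := hc (Fin.cons (w 0) (Fin.cons (w 1) (Fin.cons (w 2) v)))
  simp only [Fin.cons_zero, Fin.cons_succ] at this
  refine Iff.trans this ?_
  have e : (fun i => Sum.elim (Fin.cons (w 0) (Fin.cons (w 1) (Fin.cons (w 2) v)) :
      Fin (n + 3) → M) id (c i))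
      = fun i => Sum.elim w id
        (Sum.elim (Fin.cases (Sum.inl 0) (Fin.cases (Sum.inl 1)
    (Fin.cases (Sum.inl 2) (fun j => Sum.inr (v j))))) Sum.inr (c i)) := by
    funext i
    generalize c i = z
    rcases z with j | a
    · refine Fin.cases ?_ (fun j' => ?_) j
      · simp
      · refine Fin.cases ?_ (fun j'' => ?_) j'
        · rfl
        · refine Fin.cases ?_ (fun j3 => ?_) j''
          · rfl
          · simp
    · simp
  rw [e]

theorem cl_dom {R : M → M → Prop} (hR : Cl2 R) : Cl (fun z => ∃ y : M, R z y) := by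
  infer_instance

theorem ext_coll (hE : EqFacts F) {G : M → Prop} (hG : Gen F G) (hq : ExtFacts F G)
    (ht : FrcFacts F) (hcoll : CollStmt M) {n : ℕ} (f : Fml (n + 2)) (v : Fin n → Ext F G)
    (a : Ext F G) : ∃ b, ∀ x, E x a → (∃ y, Sat f (Fin.cons x (Fin.cons y v))) →
      ∃ y, E y b ∧ Sat f (Fin.cons x (Fin.cons y v)) := by
  obtain ⟨a, rfl⟩ := Quot.exists_rep a
  have e : (Quot.mk _ a : Ext F G) = mk F G a := rfl
  rw [e]
  choose v' hv' using fun i => Quot.exists_rep (v i)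
  obtain rfl : (fun i => mk F G (v' i)) = v := funext hv'
  obtain ⟨R, hR⟩ : ∃ R : M → M → Prop, R = fun z y => ∃ d p : M, z = opair d p ∧
    Frc F f p (Fin.cons d (Fin.cons y v')) := ⟨_, rfl⟩
  have hRcl : Cl2 R := by
    rw [hR]
    exact cl_repl (R := fun p d y => Frc F f p (Fin.cons d (Fin.cons y v'))) (frc_cl3 F f v')
  have hcl := cl_dom hRcl
  obtain ⟨B, hB⟩ := hcoll R hRcl (sep (prod (dm a) F.P) (fun z => ∃ y : M, R z y)) (by
    intro x hx
    rw [mem_sep' hcl] at hx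
    exact hx.2)
  refine ⟨mk F G (img B (fun y => opair y F.one)), ?_⟩
  rintro x hx ⟨y, hy⟩
  obtain ⟨d, s, h1, h2, rfl⟩ := (hq.mem_iff' _ _).1 hx
  obtain ⟨y, rfl⟩ := Quot.exists_rep y
  have e2 : (Quot.mk _ y : Ext F G) = mk F G y := rfl
  rw [e2, ← mk_cons, ← mk_cons] at hy
  obtain ⟨p, hp, hfp⟩ := (ht.truth G hG f _).1 hy
  have hz : E (opair d p) (sep (prod (dm a) F.P) (fun z => ∃ y : M, R z y)) := by
    rw [mem_sep' hcl, mem_prod]
    refine ⟨⟨mem_dm h1, hG.sub p hp⟩, y, ?_⟩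
    rw [hR]
    exact ⟨d, p, rfl, hfp⟩
  obtain ⟨y', hy'B, hy'⟩ := hB _ hz
  rw [hR] at hy'
  obtain ⟨d', p', h3, h4⟩ := hy'
  rw [opair_inj] at h3
  obtain ⟨rfl, rfl⟩ := h3
  refine ⟨mk F G y', ?_, ?_⟩
  · rw [hq.mem_iff']
    refine ⟨y', F.one, ?_, hG.one, rfl⟩
    rw [mem_img]
    exact ⟨y', hy'B, rfl⟩
  · rw [← mk_cons, ← mk_cons]
    exact (ht.truth G hG f _).2 ⟨p, hp, h4⟩

theorem ext_repl (hE : EqFacts F) {G : M → Prop} (hG : Gen F G) (hq : ExtFacts F G)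
    (ht : FrcFacts F) (hcoll : CollStmt M) {n : ℕ} (f : Fml (n + 2)) (v : Fin n → Ext F G)
    (a : Ext F G) (h : ∀ x, E x a → ∃! y, Sat f (Fin.cons x (Fin.cons y v))) :
      ∃ b, ∀ y, E y b ↔ ∃ x, E x a ∧ Sat f (Fin.cons x (Fin.cons y v)) := by
  obtain ⟨b0, hb0⟩ := ext_coll F hE hG hq ht hcoll f v a
  -- the formula for the image
  let r : Fin (n + 2) → Fin (n + 1 + 1 + 1) :=
    Fin.cons 0 (Fin.cons 1 (fun i => i.succ.succ.succ))
  let g : Fml (n + 1 + 1) := .imp (.all (.imp (.mem 0 2) (.imp (f.ren r) .bot))) .bot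
  obtain ⟨b, hb⟩ := ext_sep F hE hG hq ht g (Fin.cons a v) b0
  refine ⟨b, fun y => ?_⟩
  rw [hb]
  have hg : Sat g (Fin.cons y (Fin.cons a v)) ↔
      ∃ x, E x a ∧ Sat f (Fin.cons x (Fin.cons y v)) := by
    simp only [g, Sat, Sat_ren]
    have e1 : ∀ x : Ext F G, (fun i => (Fin.cons x (Fin.cons y (Fin.cons a v)) :
        Fin (n + 3) → Ext F G) (r i)) = Fin.cons x (Fin.cons y v) := by
      intro x
      funext i
      refine Fin.cases ?_ (fun j => ?_) i
      · rfl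
      · refine Fin.cases ?_ (fun j' => ?_) j
        · rfl
        · simp [r]
    have e2 : ∀ x : Ext F G, (Fin.cons x (Fin.cons y (Fin.cons a v)) :
        Fin (n + 3) → Ext F G) 2 = a := fun x => rfl
    have e3 : ∀ x : Ext F G, (Fin.cons x (Fin.cons y (Fin.cons a v)) :
        Fin (n + 3) → Ext F G) 0 = x := fun x => rfl
    simp only [e1, e2, e3]
    constructor
    · intro h'
      by_contra hc
      apply h'
      intro x hx hs
      exact hc ⟨x, hx, hs⟩
    · rintro ⟨x, hx, hs⟩ h'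
      exact h' x hx hs
  rw [hg]
  constructor
  · exact fun h' => h'.2
  · rintro ⟨x, hx, hs⟩
    refine ⟨?_, x, hx, hs⟩
    obtain ⟨y', hy', hs'⟩ := hb0 x hx ⟨y, hs⟩
    have : y = y' := (h x hx).unique hs hs'
    rw [this]; exact hy'

theorem zfb (heq : EQStmt) (hgm : GMStmt) (hquo : QUOStmt) (hcoll : COLLStmt)
    (hzfa : ZFAStmt) : ZFBStmt := by
  intro M _ _ F G hG
  have hE := heq M F
  have hq := hquo M F G hG
  have ht := tru heq hgm hquo M F
  exact ⟨fun n f v a => ext_sep F hE hG hq ht f v a,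
    ext_pow F hE hG hq ht (hzfa M F G hG).1,
    fun n f v a => ext_repl F hE hG hq ht (hcoll M) f v a⟩

end SW
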